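import Pool.Agent.R537.LR.Stm

/-!
# LR: mask sums with an anchor
-/

set_option autoImplicit false

namespace Pool.Agent.R737.LRNOF

open Finset Pool.Agent.NPC.R537LR

/-- Replacing `v` by `v - e` when the rows of `H` are balanced. -/
theorem lemA (m : ℕ) (H : Fin m → Fin m → ℝ) (hH : ∀ a b, |H a b| ≤ 1)
    (hrow : ∀ a, ∑ b, H a b = 0) (u v : Fin m → Fin 3 → ℝ) (hu : ∀ a s, |u a s| ≤ 2)
    (e : Fin 3 → ℝ) :
    |∑ a, ∑ b, H a b * ∑ s, u a s * v b s| ≤ 2 * m * ∑ b, ∑ s, |v b s - e s| := by
  have h1 : ∀ a, ∑ b, H a b * ∑ s, u a s * v b s =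
      ∑ b, H a b * ∑ s, u a s * (v b s - e s) := by
    intro a
    have h2 : ∀ b, H a b * ∑ s, u a s * v b s =
        H a b * (∑ s, u a s * (v b s - e s)) + H a b * ∑ s, u a s * e s := by
      intro b
      rw [← mul_add, ← Finset.sum_add_distrib]
      congr 1
      apply Finset.sum_congr rfl
      intro s _
      ring
    rw [Finset.sum_congr rfl (fun b _ => h2 b), Finset.sum_add_distrib, ← Finset.sum_mul, hrow a]
    ring
  rw [Finset.sum_congr rfl (fun a _ => h1 a)]
  calc |∑ a, ∑ b, H a b * ∑ s, u a s * (v b s - e s)|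
      ≤ ∑ a, |∑ b, H a b * ∑ s, u a s * (v b s - e s)| := Finset.abs_sum_le_sum_abs _ _
    _ ≤ ∑ a : Fin m, 2 * ∑ b, ∑ s, |v b s - e s| := by
        apply Finset.sum_le_sum
        intro a _
        calc |∑ b, H a b * ∑ s, u a s * (v b s - e s)|
            ≤ ∑ b, |H a b * ∑ s, u a s * (v b s - e s)| := Finset.abs_sum_le_sum_abs _ _
          _ ≤ ∑ b, 2 * ∑ s, |v b s - e s| := by
              apply Finset.sum_le_sum
              intro b _
              rw [abs_mul]
              calc |H a b| * |∑ s, u a s * (v b s - e s)|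
                  ≤ 1 * |∑ s, u a s * (v b s - e s)| :=
                    mul_le_mul_of_nonneg_right (hH a b) (abs_nonneg _)
                _ = |∑ s, u a s * (v b s - e s)| := one_mul _
                _ ≤ ∑ s, |u a s * (v b s - e s)| := Finset.abs_sum_le_sum_abs _ _
                _ ≤ ∑ s, 2 * |v b s - e s| := by
                    apply Finset.sum_le_sum
                    intro s _
                    rw [abs_mul]
                    exact mul_le_mul_of_nonneg_right (hu a s) (abs_nonneg _)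
                _ = 2 * ∑ s, |v b s - e s| := by rw [Finset.mul_sum]
          _ = 2 * ∑ b, ∑ s, |v b s - e s| := by rw [Finset.mul_sum]
    _ = 2 * m * ∑ b, ∑ s, |v b s - e s| := by
        rw [Finset.sum_const, Finset.card_univ, Fintype.card_fin, nsmul_eq_mul]
        ring

/-- Averages. -/
theorem avg_le (m : ℕ) (hm : 0 < m) (f : Fin m → ℝ) (x : ℝ) :
    |(∑ a, f a) / m - x| ≤ (∑ a, |x - f a|) / m := by
  have hm' : (0 : ℝ) < m := by exact_mod_cast hm
  have h1 : (∑ a, f a) / m - x = (∑ a, (f a - x)) / m := by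
    rw [Finset.sum_sub_distrib, Finset.sum_const, Finset.card_univ, Fintype.card_fin,
      nsmul_eq_mul]
    field_simp
  rw [h1, abs_div, abs_of_pos hm']
  apply div_le_div_of_nonneg_right _ hm'.le
  calc |∑ a, (f a - x)| ≤ ∑ a, |f a - x| := Finset.abs_sum_le_sum_abs _ _
    _ = ∑ a, |x - f a| := Finset.sum_congr rfl (fun a _ => abs_sub_comm _ _)

/-- Inverting an almost identity matrix. -/
theorem inv_le (Y : Fin 3 → Fin 3 → ℝ)
    (hY : ∀ i j, |Y i j - if i = j then 1 else 0| ≤ 1 / 100) (d : Fin 3 → ℝ) :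
    ∑ s, |d s| ≤ 2 * ∑ i, |∑ s, Y i s * d s| := by
  have h1 : ∀ i, |d i| ≤ |∑ s, Y i s * d s| + (1 / 100) * ∑ s, |d s| := by
    intro i
    have h2 : d i = (∑ s, Y i s * d s) - ∑ s, (Y i s - if i = s then 1 else 0) * d s := by
      rw [← Finset.sum_sub_distrib]
      have : ∀ s, Y i s * d s - (Y i s - if i = s then 1 else 0) * d s =
          if i = s then d s else 0 := by
        intro s
        split_ifs <;> ring
      rw [Finset.sum_congr rfl (fun s _ => this s)]
      simp
    calc |d i| = |(∑ s, Y i s * d s) - ∑ s, (Y i s - if i = s then 1 else 0) * d s| := by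
          rw [← h2]
      _ ≤ |∑ s, Y i s * d s| + |∑ s, (Y i s - if i = s then 1 else 0) * d s| := abs_sub _ _
      _ ≤ |∑ s, Y i s * d s| + (1 / 100) * ∑ s, |d s| := by
          apply add_le_add le_rfl
          calc |∑ s, (Y i s - if i = s then 1 else 0) * d s|
              ≤ ∑ s, |(Y i s - if i = s then 1 else 0) * d s| := Finset.abs_sum_le_sum_abs _ _
            _ ≤ ∑ s, (1 / 100) * |d s| := by
                apply Finset.sum_le_sum
                intro s _
                rw [abs_mul]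
                exact mul_le_mul_of_nonneg_right (hY i s) (abs_nonneg _)
            _ = (1 / 100) * ∑ s, |d s| := by rw [Finset.mul_sum]
  have h3 : ∑ i, |d i| ≤ ∑ i, (|∑ s, Y i s * d s| + (1 / 100) * ∑ s, |d s|) :=
    Finset.sum_le_sum (fun i _ => h1 i)
  rw [Finset.sum_add_distrib, Finset.sum_const, Finset.card_univ, Fintype.card_fin,
    nsmul_eq_mul] at h3
  have h4 : 0 ≤ ∑ i, |∑ s, Y i s * d s| := Finset.sum_nonneg (fun i _ => abs_nonneg _)
  push_cast at h3
  linarith

section

variable {R C : Type} (P : Pt R C) (m : ℕ)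

theorem dk_eq (hP : P.OK) (p : R → Fin m → Fin 3 → ℝ) (l : C → Fin m → Fin 3 → ℝ)
    (i j : Fin 3) :
    P.dk m p l (P.ar i) (P.ac j) =
      ∑ a, ∑ b, |(if i = j then (1 : ℝ) else 0) - ∑ s, p (P.ar i) a s * l (P.ac j) b s| := by
  have htC : P.tC (P.ac j) = some j := (hP.tC_iff _ _).2 rfl
  have hne : ¬ (P.ar i = P.ro ∧ P.ac j = P.co) := by
    rintro ⟨-, h⟩
    rw [h, hP.co_none] at htC
    cases htC
  have hE : P.E (P.ar i) (P.ac j) = some (if i = j then (1 : ℝ) else 0) := by
    unfold Pt.E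
    rw [htC]
    exact hP.rv_ar i j
  unfold Pt.dk
  rw [if_neg hne, hE]

/-- The second claim, and the bound behind it. -/
theorem row_le (hP : P.OK) (hm : 0 < m) (p : R → Fin m → Fin 3 → ℝ) (l : C → Fin m → Fin 3 → ℝ)
    (hB : P.Bd m p l) (i : Fin 3) :
    m * ∑ a, ∑ s, |p (P.ar i) a s - if i = s then 1 else 0| ≤
      ∑ j, P.dk m p l (P.ar i) (P.ac j) := by
  have hm' : (0 : ℝ) < m := by exact_mod_cast hm
  have h1 : ∀ a s, |p (P.ar i) a s - if i = s then 1 else 0| ≤
      (∑ b, |(if i = s then (1 : ℝ) else 0) - ∑ s', p (P.ar i) a s' * l (P.ac s) b s'|) / m := by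
    intro a s
    have h2 : p (P.ar i) a s = (∑ b, ∑ s', p (P.ar i) a s' * l (P.ac s) b s') / m := by
      rw [Finset.sum_comm, Finset.sum_div]
      have h3 : ∀ s', (∑ b, p (P.ar i) a s' * l (P.ac s) b s') / m =
          if s = s' then p (P.ar i) a s' else 0 := by
        intro s'
        have h4 := hB.nrm s s'
        unfold mean at h4
        rw [← Finset.mul_sum, mul_div_assoc, h4]
        split_ifs <;> ring
      rw [Finset.sum_congr rfl (fun s' _ => h3 s')]
      simp
    have h5 := avg_le m hm (fun b => ∑ s', p (P.ar i) a s' * l (P.ac s) b s')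
      (if i = s then (1 : ℝ) else 0)
    rw [← h2] at h5
    exact h5
  have h6 : ∀ j, P.dk m p l (P.ar i) (P.ac j) = m * ∑ a, (∑ b,
      |(if i = j then (1 : ℝ) else 0) - ∑ s', p (P.ar i) a s' * l (P.ac j) b s'|) / m := by
    intro j
    rw [dk_eq P m hP, ← Finset.sum_div]
    field_simp
  rw [Finset.sum_congr rfl (fun j _ => h6 j), ← Finset.mul_sum]
  apply mul_le_mul_of_nonneg_left _ hm'.le
  rw [Finset.sum_comm]
  apply Finset.sum_le_sum
  intro s _
  apply Finset.sum_le_sum
  intro a _
  exact h1 a s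

/-- The bound behind the first claim. -/
theorem col_le (hP : P.OK) (hm : 0 < m) (p : R → Fin m → Fin 3 → ℝ) (l : C → Fin m → Fin 3 → ℝ)
    (hB : P.Bd m p l) (j : Fin 3) :
    m * ∑ b, ∑ s, |l (P.ac j) b s - if j = s then 1 else 0| ≤
      4 * ∑ i, P.dk m p l (P.ar i) (P.ac j) := by
  have hm' : (0 : ℝ) < m := by exact_mod_cast hm
  -- the differences of the `q`s
  have hq : ∀ i b, |P.q p l (P.ac j) b i - if i = j then (1 : ℝ) else 0| ≤
      (∑ a, |(if i = j then (1 : ℝ) else 0) - ∑ s, p (P.ar i) a s * l (P.ac j) b s|) / m := by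
    intro i b
    have h2 : P.q p l (P.ac j) b i = (∑ a, ∑ s, p (P.ar i) a s * l (P.ac j) b s) / m := by
      unfold Pt.q mean
      rw [Finset.sum_comm, Finset.sum_div]
      apply Finset.sum_congr rfl
      intro s _
      rw [← Finset.sum_mul]
      ring
    rw [h2]
    exact avg_le m hm _ _
  have hqs : ∀ i, m * ∑ b, |P.q p l (P.ac j) b i - if i = j then (1 : ℝ) else 0| ≤
      P.dk m p l (P.ar i) (P.ac j) := by
    intro i
    have h6 : P.dk m p l (P.ar i) (P.ac j) = m * ∑ b, (∑ a,
        |(if i = j then (1 : ℝ) else 0) - ∑ s', p (P.ar i) a s' * l (P.ac j) b s'|) / m := by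
      rw [dk_eq P m hP, ← Finset.sum_div, Finset.sum_comm]
      field_simp
    rw [h6]
    apply mul_le_mul_of_nonneg_left _ hm'.le
    exact Finset.sum_le_sum (fun b _ => hq i b)
  -- the mean of `q`
  have hY : ∀ i, mean p (P.ar i) j = (∑ b, P.q p l (P.ac j) b i) / m := by
    intro i
    unfold Pt.q
    rw [Finset.sum_comm, Finset.sum_div]
    have h3 : ∀ s, (∑ b, mean p (P.ar i) s * l (P.ac j) b s) / m =
        if j = s then mean p (P.ar i) s else 0 := by
      intro s
      have h4 := hB.nrm j s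
      have h5 : (∑ b, mean p (P.ar i) s * l (P.ac j) b s) / m =
          mean p (P.ar i) s * mean l (P.ac j) s := by
        rw [← Finset.mul_sum, mul_div_assoc]
        rfl
      rw [h5, h4]
      split_ifs <;> ring
    rw [Finset.sum_congr rfl (fun s _ => h3 s)]
    simp
  have hYx : ∀ i, m * (m * |mean p (P.ar i) j - if i = j then (1 : ℝ) else 0|) ≤
      P.dk m p l (P.ar i) (P.ac j) := by
    intro i
    refine le_trans ?_ (hqs i)
    apply mul_le_mul_of_nonneg_left _ hm'.le
    have h1 := avg_le m hm (fun b => P.q p l (P.ac j) b i) (if i = j then (1 : ℝ) else 0)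
    rw [← hY i] at h1
    rw [le_div_iff₀ hm'] at h1
    calc m * |mean p (P.ar i) j - if i = j then (1 : ℝ) else 0|
        = |mean p (P.ar i) j - if i = j then (1 : ℝ) else 0| * m := mul_comm _ _
      _ ≤ _ := h1
      _ = _ := Finset.sum_congr rfl (fun b _ => abs_sub_comm _ _)
  have hd : ∀ b i, ∑ s, mean p (P.ar i) s * (l (P.ac j) b s - if j = s then 1 else 0) =
      P.q p l (P.ac j) b i - mean p (P.ar i) j := by
    intro b i
    unfold Pt.q
    have : ∀ s, mean p (P.ar i) s * (l (P.ac j) b s - if j = s then 1 else 0) =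
        mean p (P.ar i) s * l (P.ac j) b s - if j = s then mean p (P.ar i) s else 0 := by
      intro s
      split_ifs <;> ring
    rw [Finset.sum_congr rfl (fun s _ => this s), Finset.sum_sub_distrib]
    simp
  have hsum : ∀ i, m * ∑ b, |P.q p l (P.ac j) b i - mean p (P.ar i) j| ≤
      2 * P.dk m p l (P.ar i) (P.ac j) := by
    intro i
    have h1 : ∑ b, |P.q p l (P.ac j) b i - mean p (P.ar i) j| ≤
        ∑ b, |P.q p l (P.ac j) b i - if i = j then (1 : ℝ) else 0| +
          m * |mean p (P.ar i) j - if i = j then (1 : ℝ) else 0| := by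
      have h2 : (m : ℝ) * |mean p (P.ar i) j - if i = j then (1 : ℝ) else 0| =
          ∑ _b : Fin m, |mean p (P.ar i) j - if i = j then (1 : ℝ) else 0| := by
        rw [Finset.sum_const, Finset.card_univ, Fintype.card_fin, nsmul_eq_mul]
      rw [h2, ← Finset.sum_add_distrib]
      apply Finset.sum_le_sum
      intro b _
      have h3 : P.q p l (P.ac j) b i - mean p (P.ar i) j =
          (P.q p l (P.ac j) b i - if i = j then (1 : ℝ) else 0) -
            (mean p (P.ar i) j - if i = j then (1 : ℝ) else 0) := by ring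
      rw [h3]
      exact abs_sub _ _
    have h4 := mul_le_mul_of_nonneg_left h1 hm'.le
    rw [mul_add] at h4
    linarith [hqs i, hYx i]
  have h7 : ∑ b, ∑ s, |l (P.ac j) b s - if j = s then 1 else 0| ≤
      ∑ b, 2 * ∑ i, |P.q p l (P.ac j) b i - mean p (P.ar i) j| := by
    apply Finset.sum_le_sum
    intro b _
    have h8 := inv_le (fun i s => mean p (P.ar i) s) hB.y
      (fun s => l (P.ac j) b s - if j = s then 1 else 0)
    simp only [hd b] at h8
    exact h8
  have h7' : ∑ b, 2 * ∑ i, |P.q p l (P.ac j) b i - mean p (P.ar i) j| =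
      2 * ∑ i, ∑ b, |P.q p l (P.ac j) b i - mean p (P.ar i) j| := by
    rw [← Finset.mul_sum, Finset.sum_comm]
  rw [h7'] at h7
  have h9 := mul_le_mul_of_nonneg_left h7 hm'.le
  have h10 : ∑ i, m * ∑ b, |P.q p l (P.ac j) b i - mean p (P.ar i) j| ≤
      ∑ i, 2 * P.dk m p l (P.ar i) (P.ac j) := Finset.sum_le_sum (fun i _ => hsum i)
  rw [← Finset.mul_sum, ← Finset.mul_sum] at h10
  linarith

end

end Pool.Agent.R737.LRNOF

namespace Pool.Agent.R737

open Finset Pool.Agent.NPC.R537LR LRNOF

theorem t_NOF : S_NOF := by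
  intro R C _ _ _ _ P m H p l hP hH hm hB
  have hm' : (0 : ℝ) < m := by exact_mod_cast hm
  have habs : ∀ a b, |H a b| ≤ 1 := by
    intro a b
    rcases hH.sign a b with h | h <;> rw [h] <;> simp
  have hrow : ∀ a : Fin m, ∑ b : Fin m, H a b = 0 := by
    intro a
    rw [← Finset.sum_range (fun b => H a b)]
    exact hH.row a a.2
  have hcol : ∀ b : Fin m, ∑ a : Fin m, H a b = 0 := by
    intro b
    rw [← Finset.sum_range (fun a => H a b)]
    exact hH.col b b.2
  have hdk : ∀ i j, 0 ≤ P.dk m p l (P.ar i) (P.ac j) := by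
    intro i j
    rw [dk_eq P m hP]
    exact Finset.sum_nonneg (fun a _ => Finset.sum_nonneg (fun b _ => abs_nonneg _))
  refine ⟨?_, ?_⟩
  · intro r j
    have h1 := lemA m (fun a b => H a b) (fun a b => habs a b) hrow (p r) (l (P.ac j))
      (fun a s => hB.p2 r a s) (fun s => if j = s then 1 else 0)
    have h2 := col_le P m hP hm p l hB j
    have h3 : 0 ≤ ∑ i, P.dk m p l (P.ar i) (P.ac j) := Finset.sum_nonneg (fun i _ => hdk i j)
    refine h1.trans ?_
    rw [mul_assoc]
    linarith
  · intro i c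
    have h1 := lemA m (fun a b => H b a) (fun a b => habs b a) hcol (l c) (p (P.ar i))
      (fun a s => hB.l2 c a s) (fun s => if i = s then 1 else 0)
    have h2 := row_le P m hP hm p l hB i
    have h3 : 0 ≤ ∑ j, P.dk m p l (P.ar i) (P.ac j) := Finset.sum_nonneg (fun j _ => hdk i j)
    have h4 : ∑ a : Fin m, ∑ b : Fin m, H a b * ∑ s, p (P.ar i) a s * l c b s =
        ∑ a : Fin m, ∑ b : Fin m, H b a * ∑ s, l c a s * p (P.ar i) b s := by
      rw [Finset.sum_comm]
      apply Finset.sum_congr rfl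
      intro a _
      apply Finset.sum_congr rfl
      intro b _
      congr 1
      apply Finset.sum_congr rfl
      intro s _
      ring
    rw [h4]
    refine h1.trans ?_
    rw [mul_assoc]
    linarith

end Pool.Agent.R737
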